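import Mathlib
import Pool.Agent.H266.FN.Expl

/-!
# MP_eba1ef_gt: simple polytopes, and convex bodies with few normals at each boundary point

`c(K)` is the least number of translates of the interior of `K` that cover the convex body `K`; the
conjecture of Levi and Hadwiger (Q1) says `c(K) ≤ 2^d`, with equality for parallelotopes only.
Let `B` be the unit ball of `ℝ^d`.  For a body `K` with `B ⊆ K ⊆ D B` coverings were known to have
fewer than `2^d` members only for `D < 2` (about `D^d` caps of the sphere), and for large `D` no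
bound by `2^d` was known, however few extreme normals `K` has at each point: e.g. not for simple
polytopes.  Here:

1. if `B ⊆ K ⊆ (3/4) √d B` and the normal cone of `K` at each boundary point is generated by at
   most `d` vectors (as for every simple polytope), then `c(K) < 2^d` in all dimensions `d ≥ 850`,
   and `c(K) ≤ 1.95^d` if `d` is large.  The distance `√d` is that of the cube, for which
   `c(K) = 2^d`, and the largest one for symmetric bodies (John).
2. for all `κ` and `q > 1` there is `δ > 0` with `c(K) ≤ q^d` for large `d`, if `B ⊆ K ⊆ δ √d B`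
   and there are at most `κ d` normals at each point.
3. in all dimensions `c(K) ≤ 17 (25 n)^(D²) n d (1 + log (n d))` if `B ⊆ K ⊆ D B` and there are at
   most `n` normals at each point: a polynomial in `n` and `d` for fixed `D`.

In all three parts the inclusions `B ⊆ K ⊆ D B` are needed only locally: the tangent cone of `K` at
each boundary point `x` contains a ball of radius `1` with centre at distance at most `D` from `x`.
Without the condition on the normals, 3 fails: for `1 < D ≤ √2` there are bodies with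
`B ⊆ K ⊆ D B` and `c(K) ≥ (D - ε)^d` (`Pool.Agent.H266.RP`; Naszódi 2016 for `D < 1.116`).

Idea of the proof.  Let `x ∈ ∂K` with its normals `s` and `⟪u, b⟫ ≥ 1` for `u ∈ s`, `‖b‖ ≤ D`, and
`g` a standard Gaussian vector.  The direction `g` illuminates `x` if `⟪u, g⟫ < 0` for all `u ∈ s`.
The shift by `-σ b` (Cameron-Martin), the symmetry of the strip
`{g | |⟪u, g⟫| < σ for all u ∈ s}` and the lemma of Šidák give
`P(g illuminates x) ≥ exp(-σ² D² / 2) P(|N(0,1)| < σ)^n` for every `σ > 0`: this is
`(exp(-9/32) 0.6827)^d > 1.95^(-d)` for `σ = 1`, `D² = 9 d / 16`, `n = d`; and at least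
`c n^(-D²)` for `σ² ≈ 2 log (2 n)`.  The normals are then replaced by the points of a net of the
sphere (only `exp(O(n d log d))` sets of at most `n` points of the net occur), and a greedy choice
of directions loses only a factor `O(n d log d)`.
-/

namespace Pool.Agent.Results.MP_eba1ef_gt.SimplePolytopes

open MeasureTheory Set Metric Filter
open scoped Pointwise RealInnerProductSpace ENNReal Topology

/-- `d`-dimensional Euclidean space -/
abbrev E (d : ℕ) := EuclideanSpace ℝ (Fin d)

/-- `K` is covered by the translates `t + int K`, `t ∈ T`. -/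
def CoveredBy {d : ℕ} (T : Finset (E d)) (K : Set (E d)) : Prop :=
  K ⊆ ⋃ t ∈ T, (fun y => t + y) '' interior K

/-- There is a set `T` of at most `s` vectors such that `K` and, more generally, `K + L` for every
set `L`, is covered by the translates by the `t ∈ T` of its interior. -/
def AtMost {d : ℕ} (K : Set (E d)) (s : ℝ) : Prop :=
  ∃ T : Finset (E d), (T.card : ℝ) ≤ s ∧ ∀ L : Set (E d), CoveredBy T (K + L)

/-- The elements of `s` are unit outer normals of `K` at `x`, and each vector `v` with `⟪u, v⟫ < 0`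
for all `u ∈ s` points from `x` into the interior of `K`.  (For a convex body `K` and `x ∈ ∂K`
this means: the normal cone of `K` at `x` is generated by `s`.) -/
def NormalsAt {d : ℕ} (K : Set (E d)) (x : E d) (s : Finset (E d)) : Prop :=
  (∀ u ∈ s, ‖u‖ = 1 ∧ ∀ y ∈ K, ⟪u, y⟫ ≤ ⟪u, x⟫) ∧
  ∀ v : E d, (∀ u ∈ s, ⟪u, v⟫ < 0) → ∃ t : ℝ, 0 < t ∧ x + t • v ∈ interior K

/-- The normal cone at each boundary point of `K` is generated by at most `n` vectors. -/
def FewNormals {d : ℕ} (n : ℕ) (K : Set (E d)) : Prop :=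
  ∀ x ∈ frontier K, ∃ s : Finset (E d), s.card ≤ n ∧ NormalsAt K x s

/-- The normal cone at each boundary point `x` of `K` is generated by a set `s` of at most `n` unit
vectors, and the tangent cone `{y | ⟪u, y - x⟫ ≤ 0 for all u ∈ s}` of `K` at `x` contains a ball of
radius `1` whose centre (`x - b`) has distance at most `D` from `x`. -/
def WideCones {d : ℕ} (n : ℕ) (D : ℝ) (K : Set (E d)) : Prop :=
  ∀ x ∈ frontier K, ∃ s : Finset (E d), s.card ≤ n ∧ NormalsAt K x s ∧
    ∃ b : E d, ‖b‖ ≤ D ∧ ∀ u ∈ s, 1 ≤ ⟪u, b⟫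

/-- `AtMost K s` implies that `K` itself is covered by at most `s` translates of its interior. -/
theorem atMost_self {d : ℕ} {K : Set (E d)} {s : ℝ} (h : AtMost K s) :
    ∃ T : Finset (E d), (T.card : ℝ) ≤ s ∧ CoveredBy T K := by
  obtain ⟨T, h1, h2⟩ := h
  have := h2 {0}
  rw [add_singleton] at this
  simp only [add_zero, image_id'] at this
  exact ⟨T, h1, this⟩

theorem wide_iff {d : ℕ} {n : ℕ} {D : ℝ} {K : Set (E d)} :
    WideCones n D K ↔ Pool.Agent.H266.FN.Wide n D K := by
  constructor
  · intro h x hx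
    obtain ⟨s, h1, ⟨h2, h3⟩, h4⟩ := h x hx
    exact ⟨s, h1, h2, h4, h3⟩
  · intro h x hx
    obtain ⟨s, h1, h2, h4, h3⟩ := h x hx
    exact ⟨s, h1, ⟨h2, h3⟩, h4⟩

/-- **Coverings of convex bodies with few normals at each point.**
Parts 1-3: three bounds for the number of translates, for compact convex sets `K` with
`WideCones n D K`: (1) `n = d`, `D = (3/4) √d` (for all `d ≥ 850`, and for large `d`);
(2) `n ≤ κ d`, `D = δ √d`; (3) all `n`, `d`, `D`.
Part 4: closed sets `K` between the ball of radius `1` and the ball of radius `D`, whose normal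
cones are generated by at most `n` vectors, satisfy the condition `WideCones n D K`.
Part 5: the normal cones of a polytope `P = {y | ⟪a i, y⟫ ≤ b i for all i}` are generated by at most
`n` vectors if each point of `P` is in at most `n` of the hyperplanes `⟪a i, y⟫ = b i`
(simple `d`-polytopes: `n = d`). -/
theorem result :
    ((∀ d : ℕ, 850 ≤ d → ∀ K : Set (E d), IsCompact K → Convex ℝ K →
      WideCones d (3 / 4 * √d) K → AtMost K (2 ^ d - 1)) ∧
    (∃ d₀ : ℕ, ∀ d : ℕ, d₀ ≤ d → ∀ K : Set (E d), IsCompact K → Convex ℝ K →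
      WideCones d (3 / 4 * √d) K → AtMost K (1.95 ^ d))) ∧
    (∀ κ q : ℝ, 0 < κ → 1 < q → ∃ δ : ℝ, 0 < δ ∧ ∃ d₀ : ℕ, ∀ d : ℕ, d₀ ≤ d →
      ∀ K : Set (E d), IsCompact K → Convex ℝ K → ∀ n : ℕ, (n : ℝ) ≤ κ * d →
      WideCones n (δ * √d) K → AtMost K (q ^ d)) ∧
    (∀ (d n : ℕ) (D : ℝ) (K : Set (E d)), 1 ≤ d → 1 ≤ n → 1 ≤ D → IsCompact K → Convex ℝ K →
      WideCones n D K →
      AtMost K (17 * (25 * n) ^ (D ^ 2) * n * d * (1 + Real.log (n * d)))) ∧
    (∀ (d n : ℕ) (D : ℝ) (K : Set (E d)), IsClosed K → closedBall 0 1 ⊆ K → K ⊆ closedBall 0 D →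
      FewNormals n K → WideCones n D K) ∧
    (∀ (d n : ℕ) (ι : Type) [Fintype ι] (a : ι → E d) (b : ι → ℝ), (∀ i, a i ≠ 0) →
      (∀ y : E d, (∀ i, ⟪a i, y⟫ ≤ b i) → {i | ⟪a i, y⟫ = b i}.ncard ≤ n) →
      FewNormals n {y : E d | ∀ i, ⟪a i, y⟫ ≤ b i}) := by
  obtain ⟨⟨d₀, h1⟩, h2⟩ := Pool.Agent.H266.FN.final_fin
  refine ⟨⟨fun d hd K hK hKc hF => Pool.Agent.H266.FN.final_850 d hd K hK hKc (wide_iff.1 hF),
    ⟨d₀, fun d hd K hK hKc hF => h1 d hd K hK hKc (wide_iff.1 hF)⟩⟩, ?_, ?_, ?_, ?_⟩
  · intro κ q hκ hq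
    obtain ⟨δ, hδ, d₁, h⟩ := h2 κ q hκ hq
    exact ⟨δ, hδ, d₁, fun d hd K hK hKc n hn hF => h d hd K hK hKc n hn (wide_iff.1 hF)⟩
  · intro d n D K hd hn hD hK hKc hF
    exact Pool.Agent.H266.FN.final_explicit D hD d n hd hn K hK hKc (wide_iff.1 hF)
  · intro d n D K hcl hb1 hb2 hF
    exact wide_iff.2 (Pool.Agent.H266.FN.wide_of_balls n D K hcl hb1 hb2 hF)
  · intro d n ι _ a b ha h
    exact Pool.Agent.H266.FN.p_poly d n ι a b ha h

end Pool.Agent.Results.MP_eba1ef_gt.SimplePolytopes
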