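import Mathlib
import Pool.Agent.H266.FN.Dual

/-!
# MP_5e7226_co: simplicial polytopes, and convex bodies whose faces have few vertices

Let `s(K, o)` be the least number of hyperplanes such that every face of the convex body
`K ⊂ ℝ^d` is strictly separated from the interior point `o` by one of them; Q1 says
`s(K, o) ≤ 2^d`, with equality for cross-bodies only.

Suppose that each face of `K` is the convex hull of at most `n` points (`n = d` for simplicial
polytopes), and that each face is seen from `o` in a circular cone of half-angle `arccos (1 / D)`.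
The second condition holds if `r B ⊆ K - o ⊆ R B` with `R / r ≤ D`, for example.  Then

1. `s(K, o) < 2^d` in all dimensions `d ≥ 850`, and `s(K, o) ≤ 1.95^d` if `d` is large, if `n = d`
   and `D = (3/4) √d`.  For the regular cross-polytope, which has `s(K, o) = 2^d`, `D = √d`; and
   `√d` is John's bound for all bodies with centre `o`.
2. `s(K, o) ≤ q^d` for large `d`, for all `q > 1` and `κ`, if `n ≤ κ d` and `D ≤ δ(κ, q) √d`.
3. `s(K, o) ≤ 17 (25 n)^(D²) n d (1 + log (n d))` in all dimensions: a polynomial in `n` and `d`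
   for fixed `D`.

Idea of the proof.  Let `s` be the set of the unit vectors from `o` in the direction of the vertices
of a face, `⟪u, b⟫ ≥ 1` for `u ∈ s`, `‖b‖ ≤ D`, and let `g` be a standard Gaussian vector.  A
hyperplane orthogonal to `g`, near `o`, separates the face from `o` if `⟪u, g⟫ > 0` for all `u ∈ s`.
The shift by `σ b` (Cameron-Martin), the symmetry of the strip `{g | |⟪u, g⟫| < σ for all u ∈ s}`
and the lemma of Šidák give for this the probability `≥ exp(-σ² D² / 2) P(|N(0,1)| < σ)^n`, for every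
`σ > 0`.  A net of the sphere and a greedy choice of directions give the bounds.  (In the Lean proof
this is done for the polar body of `K`: `MP_eba1ef_gt.SimplePolytopes` of the same run.)
-/

namespace Pool.Agent.Results.MP_5e7226_co.SimplicialPolytopes

open Set Metric
open scoped RealInnerProductSpace Pointwise

/-- `d`-dimensional Euclidean space -/
abbrev E (d : ℕ) := EuclideanSpace ℝ (Fin d)

/-- The face of `K` in the direction `u`: the set of all `x ∈ K` at which `⟪u, x⟫` is maximal. -/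
def face {d : ℕ} (K : Set (E d)) (u : E d) : Set (E d) := {x ∈ K | ∀ y ∈ K, ⟪u, y⟫ ≤ ⟪u, x⟫}

/-- There are at most `N` hyperplanes such that every face of `K` is strictly separated from `o`
by one of them (the hyperplane `h` is `{x | ⟪h.1, x⟫ = h.2}`). -/
def SeparatedBy {d : ℕ} (K : Set (E d)) (o : E d) (N : ℝ) : Prop :=
  ∃ H : Finset (E d × ℝ), (H.card : ℝ) ≤ N ∧ (∀ h ∈ H, h.1 ≠ 0) ∧
    ∀ u : E d, u ≠ 0 → ∃ h ∈ H, ⟪h.1, o⟫ < h.2 ∧ ∀ x ∈ face K u, h.2 < ⟪h.1, x⟫

/-- Each face of `K` is the convex hull of at most `n` points. -/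
def SmallFaces {d : ℕ} (n : ℕ) (K : Set (E d)) : Prop :=
  ∀ u : E d, u ≠ 0 → ∃ s : Finset (E d), s.card ≤ n ∧ face K u = convexHull ℝ (s : Set (E d))

/-- Each face of `K` is the convex hull of a set `s` of at most `n` points, and it is in the circular
cone `{y | ‖y - o‖ ≤ ⟪b, y - o⟫}` with apex `o` for some `b` of norm at most `D` (the half-angle of
the cone is `arccos (1 / ‖b‖)`). -/
def NarrowFaces {d : ℕ} (n : ℕ) (D : ℝ) (K : Set (E d)) (o : E d) : Prop :=
  ∀ u : E d, u ≠ 0 → ∃ s : Finset (E d), s.card ≤ n ∧ face K u = convexHull ℝ (s : Set (E d)) ∧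
    ∃ b : E d, ‖b‖ ≤ D ∧ ∀ y ∈ s, ‖y - o‖ ≤ ⟪b, y - o⟫

/-- from coverings of the polar body to separating hyperplanes -/
theorem sep {d : ℕ} {K : Set (E d)} {o : E d} {N : ℝ} (hK : IsCompact K) (ho : o ∈ interior K)
    (h : ∃ T : Finset (E d), (T.card : ℝ) ≤ N ∧
      ∀ L : Set (E d), Pool.Agent.H266.RP.CoveredBy T (Pool.Agent.H266.FN.Dual.Pol K o + L)) :
    SeparatedBy K o N := by
  obtain ⟨T, h1, h2⟩ := h
  have h3 := h2 {0}
  rw [add_singleton] at h3
  simp only [add_zero, image_id'] at h3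
  obtain ⟨H, h4, h5, h6⟩ := Pool.Agent.H266.FN.Dual.sep_of_cover ho T h3 N h1
  refine ⟨H, h4, h5, fun u hu => ?_⟩
  obtain ⟨x₀, hx₀, hmax⟩ := hK.exists_isMaxOn ⟨o, interior_subset ho⟩
    (f := fun y => ⟪u, y⟫) (by fun_prop)
  obtain ⟨h, hh, h7, h8⟩ := h6 u x₀ hu hx₀ (fun y hy => hmax hy)
  exact ⟨h, hh, h7, fun x hx => h8 x hx.1 (le_antisymm (hmax hx.1) (hx.2 x₀ hx₀))⟩

/-- **Separation of the faces of convex bodies whose faces have few vertices.**
Parts 1-3: three bounds for the number of hyperplanes, for compact convex sets `K` with the interior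
point `o` and `NarrowFaces n D K o`: (1) `n = d`, `D = (3/4) √d` (for all `d ≥ 850`, and for
large `d`); (2) `n ≤ κ d`, `D = δ √d`; (3) all `n`, `d`, `D`.
Part 4: sets `K` between the balls of radius `r` and `R` around `o`, whose faces are convex hulls of
at most `n` points, satisfy `NarrowFaces n (R / r) K o`.
Part 5: if each face of the convex hull of the finite set `V` contains at most `n` points of `V`
(simplicial `d`-polytopes with vertex set `V`: `n = d`), then each face is the convex hull of at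
most `n` points. -/
theorem result :
    ((∀ d : ℕ, 850 ≤ d → ∀ (K : Set (E d)) (o : E d), IsCompact K → Convex ℝ K →
      o ∈ interior K → NarrowFaces d (3 / 4 * √d) K o → SeparatedBy K o (2 ^ d - 1)) ∧
    (∃ d₀ : ℕ, ∀ d : ℕ, d₀ ≤ d → ∀ (K : Set (E d)) (o : E d), IsCompact K → Convex ℝ K →
      o ∈ interior K → NarrowFaces d (3 / 4 * √d) K o → SeparatedBy K o (1.95 ^ d))) ∧
    (∀ κ q : ℝ, 0 < κ → 1 < q → ∃ δ : ℝ, 0 < δ ∧ ∃ d₀ : ℕ, ∀ d : ℕ, d₀ ≤ d →
      ∀ (K : Set (E d)) (o : E d), IsCompact K → Convex ℝ K → o ∈ interior K →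
      ∀ n : ℕ, (n : ℝ) ≤ κ * d → NarrowFaces n (δ * √d) K o → SeparatedBy K o (q ^ d)) ∧
    (∀ (d n : ℕ) (D : ℝ) (K : Set (E d)) (o : E d), 1 ≤ d → 1 ≤ n → 1 ≤ D → IsCompact K →
      Convex ℝ K → o ∈ interior K → NarrowFaces n D K o →
      SeparatedBy K o (17 * (25 * n) ^ (D ^ 2) * n * d * (1 + Real.log (n * d)))) ∧
    (∀ (d n : ℕ) (r R : ℝ) (K : Set (E d)) (o : E d), 0 < r → closedBall o r ⊆ K →
      K ⊆ closedBall o R → SmallFaces n K → NarrowFaces n (R / r) K o) ∧
    (∀ (d n : ℕ) (V : Finset (E d)),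
      (∀ u : E d, u ≠ 0 → ((V : Set (E d)) ∩ face (convexHull ℝ (V : Set (E d))) u).ncard ≤ n) →
      SmallFaces n (convexHull ℝ (V : Set (E d)))) := by
  classical
  obtain ⟨⟨d₀, h1⟩, h2⟩ := Pool.Agent.H266.FN.final_fin
  refine ⟨⟨fun d hd K o hK _ ho hF => ?_, ⟨d₀, fun d hd K o hK _ ho hF => ?_⟩⟩,
    fun κ q hκ hq => ?_, ?_, ?_, ?_⟩
  · exact sep hK ho (Pool.Agent.H266.FN.final_850 d hd _ (Pool.Agent.H266.FN.Dual.pol_compact ho)
      (Pool.Agent.H266.FN.Dual.pol_convex K o) (Pool.Agent.H266.FN.Dual.wide_pol hK ho hF))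
  · exact sep hK ho (h1 d hd _ (Pool.Agent.H266.FN.Dual.pol_compact ho)
      (Pool.Agent.H266.FN.Dual.pol_convex K o) (Pool.Agent.H266.FN.Dual.wide_pol hK ho hF))
  · obtain ⟨δ, hδ, d₁, h⟩ := h2 κ q hκ hq
    exact ⟨δ, hδ, d₁, fun d hd K o hK _ ho n hn hF => sep hK ho
      (h d hd _ (Pool.Agent.H266.FN.Dual.pol_compact ho)
        (Pool.Agent.H266.FN.Dual.pol_convex K o) n hn
        (Pool.Agent.H266.FN.Dual.wide_pol hK ho hF))⟩
  · intro d n D K o hd hn hD hK _ ho hF
    exact sep hK ho (Pool.Agent.H266.FN.final_explicit D hD d n hd hn _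
      (Pool.Agent.H266.FN.Dual.pol_compact ho) (Pool.Agent.H266.FN.Dual.pol_convex K o)
      (Pool.Agent.H266.FN.Dual.wide_pol hK ho hF))
  · intro d n r R K o hr hb1 hb2 hF
    exact Pool.Agent.H266.FN.Dual.narrow_of_balls hr hb1 hb2 hF
  · intro d n V h
    refine Pool.Agent.H266.FN.Dual.smallFaces_of_finset n V fun u hu => ?_
    refine le_trans (le_of_eq ?_) (h u hu)
    congr 1
    ext v
    refine and_congr_right fun hv => ?_
    constructor
    · intro hw
      refine ⟨subset_convexHull ℝ _ hv, fun y hy => ?_⟩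
      have h3 : convexHull ℝ (V : Set (E d)) ⊆ {y | ⟪u, y⟫ ≤ ⟪u, v⟫} :=
        convexHull_min hw (convex_halfSpace_le (innerSL ℝ u).isLinear _)
      exact h3 hy
    · rintro ⟨_, hw⟩ w hwV
      exact hw w (subset_convexHull ℝ _ hwV)

end Pool.Agent.Results.MP_5e7226_co.SimplicialPolytopes
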